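import Mathlib
import Pool.Agent.V11171.HankTM
import Pool.Agent.V11171.HankTM2

namespace Pool.Agent.Results.MP_be5c27_co.DiagonalHankel

open PowerSeries

/-- The Thue–Morse series `F = ∑_{n ≥ 1} tₙ Xⁿ` over `𝔽₂`, with `tₙ = s₂(n) mod 2` and `s₂(n)` the sum
of the binary digits of `n` (the coefficient of `X⁰` is `t₀ = 0`). -/
noncomputable def tmSeries : PowerSeries (ZMod 2) :=
  PowerSeries.mk fun n => (((Nat.digits 2 n).sum : ℕ) : ZMod 2)

/-- `G` is the compositional inverse of `F`: `G(0) = 0`, `F(G(X)) = X` and `G(F(X)) = X`. -/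
def IsCompInverse (F G : PowerSeries (ZMod 2)) : Prop :=
  constantCoeff G = 0 ∧ PowerSeries.subst G F = X ∧ PowerSeries.subst F G = X

/-- The `n × n` Hankel matrix `h_{p,n}` whose `(i, j)` entry (`1 ≤ i, j ≤ n`) is the coefficient
`c_{p+i+j-1} ∈ {0, 1}` of `G`, read as an integer (`i`, `j` are the indices of `Fin n` plus `1`). -/
noncomputable def hankel (G : PowerSeries (ZMod 2)) (p n : ℕ) : Matrix (Fin n) (Fin n) ℤ :=
  Matrix.of fun i j => ((coeff (p + (i.val + 1) + (j.val + 1) - 1) G).val : ℤ)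

/-- `n` is a sum of distinct powers of `4`. -/
def MoserDeBruijn (n : ℕ) : Prop := ∃ s : Finset ℕ, n = ∑ k ∈ s, 4 ^ k

/-- The Thue–Morse series has a unique compositional inverse `G`, and for every `n ≥ 1` the
diagonal Hankel determinant `H_{n,n}` of `G` (over `ℤ`) is `1` if `n` is a sum of distinct powers
of `4`, and `0` otherwise. -/
theorem result :
    (∃! G : PowerSeries (ZMod 2), IsCompInverse tmSeries G) ∧
    ∀ G : PowerSeries (ZMod 2), IsCompInverse tmSeries G → ∀ n : ℕ, 1 ≤ n →
      (MoserDeBruijn n → (hankel G n n).det = 1) ∧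
      (¬ MoserDeBruijn n → (hankel G n n).det = 0) := by
  have hF0 : constantCoeff tmSeries = 0 := by
    rw [← coeff_zero_eq_constantCoeff_apply, tmSeries, coeff_mk]; simp
  have hF1 : IsUnit (coeff 1 tmSeries) := by
    rw [tmSeries, coeff_mk]; simp
  constructor
  · refine ⟨tmSeries.substInvOfIsUnit hF1, ⟨constantCoeff_substInvOfIsUnit _ _,
      subst_substInvOfIsUnit_right _ hF0 hF1, subst_substInvOfIsUnit_left _ hF0 hF1⟩, ?_⟩
    rintro G ⟨h0, h1, _⟩
    have key : ∀ G₁ G₂ : PowerSeries (ZMod 2), constantCoeff G₁ = 0 → constantCoeff G₂ = 0 →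
        subst G₁ tmSeries = X → subst G₂ tmSeries = X → G₁ = G₂ := by
      intro G₁ G₂ a1 a2 b1 b2
      have : 1 + G₁ = 1 + G₂ := by
        ext m
        rw [V11171.HankTM.K_coeff G₁ a1 b1 m, V11171.HankTM.K_coeff G₂ a2 b2 m]
      exact add_left_cancel this
    exact key _ _ h0 (constantCoeff_substInvOfIsUnit _ _) h1
      (subst_substInvOfIsUnit_right _ hF0 hF1)
  · rintro G ⟨h0, h1, _⟩ n hn
    have hdet : (hankel G n n).det = V11171.HankTM.a n := by
      rw [← V11171.HankTM.main' n, V11171.HankTM.H]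
      congr 1
      ext i j
      simp only [hankel, V11171.HankTM.M, Matrix.of_apply]
      rw [V11171.HankTM.G_coeff G h0 h1 _ (by omega)]
      congr 1; omega
    rw [hdet]
    constructor
    · rintro ⟨s, hs⟩
      exact V11171.HankTM.a_of_sum n s hs.symm
    · intro hn'
      rcases V11171.HankTM.a01 n with h | h
      · exact h
      · exact absurd (V11171.HankTM.sum_of_a n h) hn'

end Pool.Agent.Results.MP_be5c27_co.DiagonalHankel
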